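import Pool.Agent.H74.G.R_seed8.Y504.CO.Stm

/-!
# Project CO: the Newton method
-/

set_option autoImplicit false

namespace Pool.Agent.Y117.CO.NW

open Filter Set Metric

theorem main : Pool.Agent.Y504.CO.S_NW := by
  intro E₁ E₂ _ _ _ _ _ _ hd F F' y L c r hc hr hL hF hF' hy
  have hinj : Function.Injective (L : E₁ →ₗ[ℝ] E₂) := by
    rw [injective_iff_map_eq_zero]
    intro v hv
    have h1 := hL v
    have h2 : L v = 0 := hv
    rw [h2, norm_zero] at h1
    have h3 : ‖v‖ ≤ 0 := by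
      by_contra h
      push Not at h
      nlinarith
    exact norm_le_zero_iff.mp h3
  have hsur : Function.Surjective (L : E₁ →ₗ[ℝ] E₂) :=
    (LinearMap.injective_iff_surjective_of_finrank_eq_finrank hd).mp hinj
  obtain ⟨k, hk⟩ : ∃ k : NNReal, (k : ℝ) = 1 / c := ⟨⟨1 / c, by positivity⟩, rfl⟩
  obtain ⟨l, hl⟩ : ∃ l : NNReal, (l : ℝ) = c / 2 := ⟨⟨c / 2, by positivity⟩, rfl⟩
  choose g hg using hsur
  have hg' : ∀ z, L (g z) = z := hg
  have hgb : ∀ z, ‖g z‖ ≤ (k : ℝ) * ‖z‖ := by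
    intro z
    have h1 := hL (g z)
    rw [hg' z] at h1
    rw [hk, div_mul_eq_mul_div, one_mul, le_div_iff₀ hc]
    linarith
  let R : L.NonlinearRightInverse :=
    { toFun := g
      nnnorm := k
      bound' := hgb
      right_inv' := hg' }
  have hA : ApproximatesLinearOn F L (closedBall y r) l := by
    rw [ApproximatesLinearOn]
    intro a ha b hb
    rw [hl]
    exact Convex.norm_image_sub_le_of_norm_hasFDerivWithin_le'
      (fun x hx => (hF x hx).hasFDerivWithinAt) hF' (convex_closedBall y r) hb ha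
  have hs := hA.surjOn_closedBall_of_nonlinearRightInverse R hr.le (b := y) subset_rfl
  have h0 : (0 : E₂) ∈ closedBall (F y) (((R.nnnorm : ℝ)⁻¹ - (l : ℝ)) * r) := by
    have h3 : (R.nnnorm : ℝ) = 1 / c := hk
    rw [h3, hl, mem_closedBall, dist_zero_left]
    refine hy.trans (le_of_eq ?_)
    rw [one_div, inv_inv]
    ring
  obtain ⟨x, hx, hx0⟩ := hs h0
  exact ⟨x, hx, hx0⟩

end Pool.Agent.Y117.CO.NW
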